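import Pool.Agent.helper84.TEX.Spec

/-!
# Row XE3 of block EX
-/

set_option autoImplicit false

namespace Pool.Agent.TEX

open Pool.Agent.TC Pool.Agent.TN Polynomial

noncomputable section

theorem XE3 : XE3_stmt := by
  intro l hl
  refine (Nat.infinite_setOfPred_prime_modEq_one hl.ne_zero).mono ?_
  rintro p ⟨hp, h⟩
  exact ⟨hp, (Nat.modEq_iff_dvd' hp.one_le).1 h.symm⟩

end

end Pool.Agent.TEX
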