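import Pool.Agent.helper84.TEX.Spec

/-!
# Row XFA of block EX
-/

set_option autoImplicit false

namespace Pool.Agent.TEX

open Pool.Agent.TC Pool.Agent.TN Polynomial

noncomputable section

theorem XFA_prd {l : ℕ} (D : Cvs l) (r : ℕ) [Fact r.Prime] (ψ : Qb →+* Om r)
    (y : ∀ i, Fin (D.n i + 1) → ℚ_[r]) (h : ∀ i j, ψ (D.a i j) = algebraMap ℚ_[r] (Om r) (y i j))
    (i : Fin D.k) (e : Fin (D.n i + 1) → Fin (D.n i + 1) → ℤ) :
    ψ (D.prd i e) = algebraMap ℚ_[r] (Om r) (∏ j, ∏ j' ∈ Finset.Ioi j, (y i j - y i j') ^ e j j') := by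
  unfold Cvs.prd
  simp only [map_prod, map_zpow₀, map_sub, h]

theorem XFA_norm {r n : ℕ} [Fact r.Prime] (y : Fin (n + 1) → ℚ_[r]) (e : Fin (n + 1) → Fin (n + 1) → ℤ) :
    ‖∏ j, ∏ j' ∈ Finset.Ioi j, (y j - y j') ^ e j j'‖ =
      ∏ j, ∏ j' ∈ Finset.Ioi j, ‖y j - y j'‖ ^ e j j' := by
  simp only [norm_prod, norm_zpow]

theorem XFA_one {r n : ℕ} [Fact r.Prime] (y : Fin (n + 1) → ℚ_[r]) (e : Fin (n + 1) → Fin (n + 1) → ℤ)
    (h : ∀ j j', j < j' → ‖y j - y j'‖ = 1) :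
    ‖∏ j, ∏ j' ∈ Finset.Ioi j, (y j - y j') ^ e j j'‖ = 1 := by
  rw [XFA_norm]
  refine Finset.prod_eq_one fun j _ => Finset.prod_eq_one fun j' hj' => ?_
  rw [h j j' (Finset.mem_Ioi.1 hj'), one_zpow]

theorem XFA_single {r n : ℕ} [Fact r.Prime] (y : Fin (n + 1) → ℚ_[r]) (e : Fin (n + 1) → Fin (n + 1) → ℤ)
    (u u' : Fin (n + 1)) (huu : u < u')
    (h : ∀ j j', j < j' → ¬ (j = u ∧ j' = u') → ‖y j - y j'‖ = 1) :
    ‖∏ j, ∏ j' ∈ Finset.Ioi j, (y j - y j') ^ e j j'‖ = ‖y u - y u'‖ ^ e u u' := by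
  rw [XFA_norm, Finset.prod_eq_single u, Finset.prod_eq_single u']
  · intro j' hj' hne
    rw [h u j' (Finset.mem_Ioi.1 hj') (fun hh => hne hh.2), one_zpow]
  · intro hh
    exact absurd (Finset.mem_Ioi.2 huu) hh
  · intro j _ hne
    refine Finset.prod_eq_one fun j' hj' => ?_
    rw [h j j' (Finset.mem_Ioi.1 hj') (fun hh => hne hh.1), one_zpow]
  · intro hh
    exact absurd (Finset.mem_univ _) hh

/-- the exponents -/
def XFA_e {n : ℕ} (u v : Fin (n + 1)) (j j' : Fin (n + 1)) : ℤ :=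
  (if j = 0 ∧ j' = u then 1 else 0) - (if j = 0 ∧ j' = v then 1 else 0)

theorem XFA_sum {n : ℕ} (u : Fin (n + 1)) (hu : 0 < u) :
    ∑ j : Fin (n + 1), ∑ j' ∈ Finset.Ioi j, (if j = 0 ∧ j' = u then (1 : ℤ) else 0) = 1 := by
  rw [Finset.sum_eq_single 0, Finset.sum_eq_single u]
  · simp
  · intro j' _ hne
    simp [hne]
  · intro hh
    exact absurd (Finset.mem_Ioi.2 hu) hh
  · intro j _ hne
    exact Finset.sum_eq_zero fun j' _ => by simp [hne]
  · intro hh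
    exact absurd (Finset.mem_univ _) hh

theorem XFA_deg {n : ℕ} (u v : Fin (n + 1)) (hu : 0 < u) (hv : 0 < v) : Cvs.Deg0 (XFA_e u v) := by
  unfold Cvs.Deg0 XFA_e
  simp only [Finset.sum_sub_distrib]
  rw [XFA_sum u hu, XFA_sum v hv, sub_self]

theorem XFA_val {r l : ℕ} [Fact r.Prime] (hl : 2 ≤ l) (w : ℚ_[r]) (h : ‖w‖ ^ l = (r : ℝ)⁻¹) : False := by
  have hr : 1 < (r : ℝ) := by exact_mod_cast (Fact.out : r.Prime).one_lt
  have hw : w ≠ 0 := by
    rintro rfl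
    rw [norm_zero, zero_pow (by omega)] at h
    have : (0 : ℝ) < (r : ℝ)⁻¹ := by positivity
    linarith
  rw [Padic.norm_eq_zpow_neg_valuation hw, ← zpow_natCast, ← zpow_mul, ← zpow_neg_one] at h
  have h2 : -w.valuation * (l : ℤ) = -1 := zpow_right_injective₀ (by linarith) (by linarith) h
  have h3 : (l : ℤ) ∣ 1 := ⟨w.valuation, by linarith⟩
  have h4 : l ∣ 1 := by exact_mod_cast h3
  have := Nat.le_of_dvd one_pos h4
  omega

theorem XFA (hXPL : XPL_stmt) : XFA_stmt := by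
  intro l D f r s hl h2 hR hLoc i i' hne
  right; right; left
  have hn := h2 i
  have : Fact (r i).Prime := ⟨hLoc.rp i⟩
  let u : Fin (D.n i + 1) := ⟨1, by omega⟩
  let v : Fin (D.n i + 1) := ⟨2, by omega⟩
  have hu : (0 : Fin (D.n i + 1)) < u := by
    rw [Fin.lt_def]
    simp [u]
  have hv : (0 : Fin (D.n i + 1)) < v := by
    rw [Fin.lt_def]
    simp [v]
  have huv : u ≠ v := by
    intro h
    have := congrArg Fin.val h
    simp [u, v] at this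
  refine ⟨XFA_e u v, XFA_deg u v hu hv, ?_⟩
  intro e' z _ hz heq
  obtain ⟨ψ, y, hy1, hy2, hy3, hy4, hy5⟩ := hXPL l D f r s hl h2 hR hLoc i 0 u hu
  obtain ⟨w, hw⟩ := hy5 z hz
  have h1 := congrArg ψ heq
  rw [XFA_prd D (r i) ψ y hy1, map_mul, map_pow, XFA_prd D (r i) ψ y hy1, ← hw, ← map_pow,
    ← map_mul] at h1
  have h3 := congrArg norm ((algebraMap ℚ_[r i] (Om (r i))).injective h1)
  rw [norm_mul, norm_pow, XFA_one (y i') e' (hy2 i' (Ne.symm hne)), mul_one,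
    XFA_single (y i) (XFA_e u v) 0 u hu hy3, hy4] at h3
  have he : XFA_e u v 0 u = 1 := by
    unfold XFA_e
    simp [huv]
  rw [he, zpow_one] at h3
  exact XFA_val hl.two_le w h3.symm

end

end Pool.Agent.TEX
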