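import Pool.Agent.helper84.TEX.Spec

/-!
# Row XQK of block EX
-/

set_option autoImplicit false

namespace Pool.Agent.TEX

open Pool.Agent.TC Pool.Agent.TN Polynomial

noncomputable section

theorem XQK (hXPB : XPB_stmt) : XQK_stmt := by
  intro l D r _ ψ ha hs z hz
  have hgal : IsGalois ℚ_[r] (Om r) := inferInstance
  have hfix : ∀ τ : Om r ≃ₐ[ℚ_[r]] Om r, τ (ψ z) = ψ z := by
    intro τ
    obtain ⟨σ, hσ⟩ := hXPB r ψ τ
    have h1 : ∀ x : Qb, (∃ y : ℚ_[r], algebraMap ℚ_[r] (Om r) y = ψ x) → σ.ap x = x := by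
      rintro x ⟨y, hy⟩
      apply ψ.injective
      rw [hσ x, ← hy, AlgEquiv.commutes]
    have h2 : σ.ap z = z := hz σ (fun i j => h1 _ (ha i j)) fun s h => h1 s (hs s h)
    rw [← hσ z, h2]
  have h3 : ψ z ∈ (⊥ : IntermediateField ℚ_[r] (Om r)) := (InfiniteGalois.mem_bot_iff_fixed _).2 hfix
  exact IntermediateField.mem_bot.1 h3

end

end Pool.Agent.TEX
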